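import Mathlib

/-! For even `n` the greedy random walk on `K_n` has overhead of order `n log n`. -/

open Finset MeasureTheory Filter Topology

namespace Pool.Agent.Results.MP_3173ec_pr.No

variable {n : ℕ}

/-- edges traversed up to time `t` along the path `x` -/
def used (x : ℕ → Fin n) (t : ℕ) : Finset (Sym2 (Fin n)) := (range t).image fun s => s(x s, x (s + 1))

/-- the other endpoints of the edges of `K_n` at `v` that are not in `H` -/
def free (H : Finset (Sym2 (Fin n))) (v : Fin n) : Finset (Fin n) := univ.filter fun w => w ≠ v ∧ s(v, w) ∉ H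

/-- probability of the step from `v` to `w` when the edges in `H` have been traversed -/
noncomputable def step (H : Finset (Sym2 (Fin n))) (v w : Fin n) : ℝ :=
  if (free H v).Nonempty then (if w ∈ free H v then 1 / (free H v).card else 0)
  else if w ≠ v then 1 / ((n : ℝ) - 1) else 0

/-- the process follows `x` up to time `t` -/
def cyl {Ω : Type} (X : ℕ → Ω → Fin n) (x : ℕ → Fin n) (t : ℕ) : Set Ω := {ω | ∀ i ≤ t, X i ω = x i}

/-- `X` is a greedy random walk with the uniform rule on `K_n` -/
def IsGRW {Ω : Type} [MeasurableSpace Ω] (P : Measure Ω) (X : ℕ → Ω → Fin n) : Prop :=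
  (∀ t, Measurable (X t)) ∧
    ∀ (x : ℕ → Fin n) (t : ℕ), P.real (cyl X x (t + 1)) = P.real (cyl X x t) * step (used x t) (x t) (x (t + 1))

/-- every edge of `K_n` lies in `H` -/
def Full (H : Finset (Sym2 (Fin n))) : Prop := ∀ u v : Fin n, u ≠ v → s(u, v) ∈ H

/-- the edge cover time of the path `x` -/
noncomputable def cover (x : ℕ → Fin n) : ENNReal := ⨅ (t : ℕ) (_ : Full (used x t)), (t : ENNReal)

/-- vertices of odd type -/
def odd (H : Finset (Sym2 (Fin n))) (u : Fin n) : Finset (Fin n) :=
  univ.filter fun v => Odd ((free H v).card + if v = u then 1 else 0)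

/-- harmonic part of the potential -/
noncomputable def g (n k : ℕ) : ℝ := ((n : ℝ) - 1) / 2 * harmonic (k / 2)

/-- the potential -/
noncomputable def pot (H : Finset (Sym2 (Fin n))) (u : Fin n) : ℝ :=
  (∑ v, ((free H v).card : ℝ)) / 2 + g n (odd H u).card

lemma harm_mono {a b : ℕ} (h : a ≤ b) : (harmonic a : ℝ) ≤ harmonic b := by
  induction b, h using Nat.le_induction with
  | base => exact le_rfl
  | succ b _ ih => rw [harmonic_succ]; push_cast; have : (0 : ℝ) ≤ ((b : ℝ) + 1)⁻¹ := by positivity
                   linarith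

lemma g_mono (hn : 2 ≤ n) {a b : ℕ} (h : a ≤ b) : g n a ≤ g n b := by
  have : (2 : ℝ) ≤ n := by exact_mod_cast hn
  exact mul_le_mul_of_nonneg_left (harm_mono (Nat.div_le_div_right h)) (by linarith)

lemma g_nonneg (hn : 2 ≤ n) (a : ℕ) : 0 ≤ g n a := by simpa [g] using g_mono hn (Nat.zero_le a)

lemma pot_nonneg (hn : 2 ≤ n) (H : Finset (Sym2 (Fin n))) (u : Fin n) : 0 ≤ pot H u :=
  add_nonneg (by positivity) (g_nonneg hn _)

lemma pot_le (hn : 2 ≤ n) (H : Finset (Sym2 (Fin n))) (u : Fin n) : pot H u ≤ n * n / 2 + g n n := by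
  refine add_le_add (div_le_div_of_nonneg_right ?_ (by norm_num)) (g_mono hn (by simpa using card_le_univ (odd H u)))
  refine (Finset.sum_le_sum (g := fun _ => (n : ℝ)) fun v _ => ?_).trans (by simp)
  exact_mod_cast (by simpa using card_le_univ (free H v) : (free H v).card ≤ n)

lemma free_full {H : Finset (Sym2 (Fin n))} (h : Full H) (v : Fin n) : free H v = ∅ :=
  Finset.filter_eq_empty_iff.2 fun w _ hw => hw.2 (h v w hw.1.symm)

lemma pot_full {H : Finset (Sym2 (Fin n))} (h : Full H) (u : Fin n) : pot H u = 0 := by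
  have : odd H u = {u} := by
    ext v; by_cases hv : v = u <;> simp [odd, free_full h, hv]
  simp [pot, free_full h, this, g]

lemma pot_empty (hn : 2 ≤ n) (he : Even n) (u : Fin n) :
    pot (∅ : Finset (Sym2 (Fin n))) u = n.choose 2 + ((n : ℝ) - 1) / 2 * harmonic (n / 2 - 1) := by
  have h1 : ∀ v : Fin n, (free (∅ : Finset (Sym2 (Fin n))) v).card = n - 1 := fun v => by
    have : free (∅ : Finset (Sym2 (Fin n))) v = univ.erase v := by ext w; simp [free]
    simp [this]
  obtain ⟨m, hm⟩ := he
  have h2 : odd (∅ : Finset (Sym2 (Fin n))) u = univ.erase u := by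
    ext v
    by_cases hv : v = u <;> simp only [odd, h1, hv, mem_filter, mem_univ, mem_erase, Nat.odd_iff] <;> simp <;> omega
  have h3 : (n - 1) / 2 = n / 2 - 1 := by omega
  simp only [pot, h1, h2, g, card_erase_of_mem (mem_univ u), card_univ, Fintype.card_fin, h3, sum_const,
    nsmul_eq_mul, Nat.cast_choose_two, Nat.cast_sub (by omega : 1 ≤ n), Nat.cast_one]

lemma card_free_insert {H : Finset (Sym2 (Fin n))} {u w : Fin n} (hw : w ∈ free H u) (v : Fin n) :
    (free (insert s(u, w) H) v).card + ((if v = u then 1 else 0) + if v = w then 1 else 0) = (free H v).card := by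
  obtain ⟨hwu, hH⟩ := (mem_filter.1 hw).2
  by_cases h1 : v = u
  · subst h1
    have : free (insert s(v, w) H) v = (free H v).erase w := by
      ext y; simp only [free, mem_filter, mem_univ, mem_insert, mem_erase, Sym2.eq_iff]; grind
    rw [this, if_pos rfl, if_neg hwu.symm]; exact card_erase_add_one hw
  · by_cases h2 : v = w
    · subst h2
      have hu : u ∈ free H v := mem_filter.2 ⟨mem_univ _, hwu.symm, by rwa [Sym2.eq_swap]⟩
      have : free (insert s(u, v) H) v = (free H v).erase u := by
        ext y; simp only [free, mem_filter, mem_univ, mem_insert, mem_erase, Sym2.eq_iff]; grind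
      rw [this, if_neg h1, if_pos rfl]; exact card_erase_add_one hu
    · have : free (insert s(u, w) H) v = free H v := by
        ext y; simp only [free, mem_filter, mem_univ, mem_insert, Sym2.eq_iff]; grind
      simp [this, h1, h2]

lemma pot_greedy {H : Finset (Sym2 (Fin n))} {u w : Fin n} (hw : w ∈ free H u) :
    pot (insert s(u, w) H) w = pot H u - 1 := by
  have hwu : w ≠ u := (mem_filter.1 hw).2.1
  have h1 : odd (insert s(u, w) H) w = odd H u := by
    ext v
    have := card_free_insert hw v
    simp only [odd, mem_filter, mem_univ, true_and, Nat.odd_iff]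
    split_ifs at this ⊢ <;> omega
  have h2 : ∑ v, ((free (insert s(u, w) H) v).card : ℝ) + 2 = ∑ v, ((free H v).card : ℝ) := by
    have := Finset.sum_congr rfl fun v (_ : v ∈ univ) => card_free_insert hw v
    simp only [sum_add_distrib, sum_ite_eq', mem_univ, if_true] at this
    exact_mod_cast this
  simp only [pot, h1]; linarith

lemma pot_stuck (hn : 2 ≤ n) {H : Finset (Sym2 (Fin n))} {u : Fin n} (hu : free H u = ∅) :
    ((n : ℝ) - 1) * (pot H u - 1) ≤ ∑ w ∈ univ.erase u, pot (insert s(u, w) H) w := by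
  have hn' : (2 : ℝ) ≤ n := by exact_mod_cast hn
  have huo : u ∈ odd H u := by simp [odd, hu]
  set K := (odd H u).card with hK
  have hK1 : 1 ≤ K := card_pos.2 ⟨u, huo⟩
  set δ : ℝ := g n K - g n (K - 2) with hδ
  have h1 : ∀ w ∈ univ.erase u, pot H u - (if w ∈ (odd H u).erase u then δ else 0) ≤ pot (insert s(u, w) H) w := by
    intro w hw
    have hwu : w ≠ u := ne_of_mem_erase hw
    have hH : s(u, w) ∈ H := by
      by_contra hc
      have : w ∈ free H u := mem_filter.2 ⟨mem_univ _, hwu, hc⟩
      simp [hu] at this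
    rw [insert_eq_of_mem hH]
    have hs : ((odd H u).erase u).erase w ⊆ odd H w := fun v hv => by
      simp only [odd, mem_erase, mem_filter, mem_univ, true_and] at hv ⊢
      simpa [hv.1, hv.2.1] using hv.2.2
    split_ifs with h
    · have := card_le_card hs
      rw [card_erase_of_mem h, card_erase_of_mem huo] at this
      have := g_mono hn (show K - 2 ≤ (odd H w).card by omega)
      simp only [pot]; linarith
    · have hs' : insert w ((odd H u).erase u) ⊆ odd H w := fun v hv => by
        rcases mem_insert.1 hv with rfl | hv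
        · simp only [odd, mem_erase, mem_filter, mem_univ, true_and, Nat.odd_iff, if_neg hwu] at h ⊢
          simp only [if_true]; have := fun h' => h ⟨hwu, h'⟩; omega
        · exact hs (mem_erase.2 ⟨fun e => h (e ▸ hv), hv⟩)
      have := card_le_card hs'
      rw [card_insert_of_notMem h, card_erase_of_mem huo] at this
      have := g_mono hn (show K ≤ (odd H w).card by omega)
      simp only [pot]; linarith
  refine le_trans ?_ (sum_le_sum h1)
  have h2 : univ.erase u ∩ (odd H u).erase u = (odd H u).erase u :=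
    inter_eq_right.2 (erase_subset_erase _ (subset_univ _))
  rw [sum_sub_distrib, sum_ite_mem, h2, sum_const, sum_const, card_erase_of_mem huo, card_erase_of_mem (mem_univ u)]
  simp only [card_univ, Fintype.card_fin, nsmul_eq_mul, ← hK, Nat.cast_sub (by omega : 1 ≤ n), Nat.cast_one]
  have h3 : ((K - 1 : ℕ) : ℝ) * δ ≤ n - 1 := by
    rcases hK1.eq_or_lt with h | h
    · rw [← h]; simp; linarith
    · obtain ⟨m, hm⟩ : ∃ m, K / 2 = m + 1 := ⟨K / 2 - 1, by omega⟩
      have h4 : (K - 2) / 2 = m := by omega
      have h5 : ((K - 1 : ℕ) : ℝ) ≤ 2 * (m + 1) := by exact_mod_cast (by omega : K - 1 ≤ 2 * (m + 1))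
      have h6 : δ = (n - 1) / (2 * (m + 1)) := by
        simp only [hδ, g, hm, h4, harmonic_succ]; push_cast; field_simp; ring
      rw [h6, mul_div_assoc', div_le_iff₀ (by positivity)]
      nlinarith
  linarith

open Classical in
lemma drift (hn : 2 ≤ n) (H : Finset (Sym2 (Fin n))) (u : Fin n) :
    0 ≤ ∑ w, step H u w * (pot (insert s(u, w) H) w - pot H u + if Full H then 0 else 1) := by
  have hn' : (2 : ℝ) ≤ n := by exact_mod_cast hn
  by_cases hF : Full H
  · refine sum_nonneg fun w _ => mul_nonneg ?_ ?_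
    · simp only [step]; split_ifs <;> first | positivity | exact div_nonneg zero_le_one (by linarith)
    · simpa [hF, pot_full hF] using pot_nonneg hn _ _
  by_cases hu : (free H u).Nonempty
  · refine sum_nonneg fun w _ => ?_
    by_cases hw : w ∈ free H u
    · simp [pot_greedy hw, hF]
    · simp [step, hu, hw]
  · have := pot_stuck hn (not_nonempty_iff_eq_empty.1 hu)
    simp only [step, hu, hF, if_false, ite_mul, zero_mul]
    rw [← sum_filter, filter_ne', ← mul_sum]
    refine mul_nonneg (div_nonneg zero_le_one (by linarith)) ?_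
    simp only [sum_add_distrib, sum_sub_distrib, sum_const, card_erase_of_mem (mem_univ u), card_univ,
      Fintype.card_fin, nsmul_eq_mul, Nat.cast_sub (by omega : 1 ≤ n), Nat.cast_one]
    linarith

lemma used_congr {x y : ℕ → Fin n} {t : ℕ} (h : ∀ i ≤ t, x i = y i) : used x t = used y t :=
  image_congr fun s hs => by
    have := mem_range.1 hs
    simp only [h s (by omega), h (s + 1) (by omega)]

lemma used_succ (x : ℕ → Fin n) (t : ℕ) : used x (t + 1) = insert s(x t, x (t + 1)) (used x t) := by
  simp [used, range_add_one]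

lemma used_mono (x : ℕ → Fin n) {s t : ℕ} (h : s ≤ t) : used x s ⊆ used x t :=
  image_subset_image (range_mono h)

lemma one_step {Ω : Type} [MeasurableSpace Ω] {P : Measure Ω} [IsProbabilityMeasure P] {X : ℕ → Ω → Fin n}
    (hX : IsGRW P X) (G : Finset (Sym2 (Fin n)) → Fin n → Fin n → ℝ) (hG : ∀ H u, 0 ≤ ∑ w, step H u w * G H u w)
    (t : ℕ) : Integrable (fun ω => G (used (fun i => X i ω) t) (X t ω) (X (t + 1) ω)) P ∧
      0 ≤ ∫ ω, G (used (fun i => X i ω) t) (X t ω) (X (t + 1) ω) ∂P := by
  set e : (Fin (t + 1) → Fin n) → Fin n → ℕ → Fin n := fun h w i => if hi : i < t + 1 then h ⟨i, hi⟩ else w with he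
  have hm : ∀ x s, MeasurableSet (cyl X x s) := fun x s => by
    have : cyl X x s = ⋂ i, ⋂ (_ : i ≤ s), X i ⁻¹' {x i} := by ext ω; simp [cyl]
    rw [this]
    exact .iInter fun i => .iInter fun _ => hX.1 i (measurableSet_singleton _)
  have h1 : (fun ω => G (used (fun i => X i ω) t) (X t ω) (X (t + 1) ω)) = fun ω => ∑ h, ∑ w,
      (cyl X (e h w) (t + 1)).indicator (fun _ => G (used (e h w) t) (h (Fin.last t)) w) ω := by
    funext ω
    have hc : ∀ h w, ω ∈ cyl X (e h w) (t + 1) ↔ h = (fun i : Fin (t + 1) => X i ω) ∧ w = X (t + 1) ω := by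
      intro h w
      constructor
      · intro hω
        refine ⟨funext fun i => ?_, ?_⟩
        · have := hω i (by omega); simp only [he, i.2, dif_pos] at this; exact this.symm
        · have := hω (t + 1) le_rfl; simp only [he, lt_irrefl, dif_neg, not_false_eq_true] at this; exact this.symm
      · rintro ⟨rfl, rfl⟩ i hi
        simp only [he]
        split_ifs with h
        · rfl
        · congr 1; omega
    rw [sum_eq_single (fun i : Fin (t + 1) => X i ω), sum_eq_single (X (t + 1) ω),
      Set.indicator_of_mem ((hc _ _).2 ⟨rfl, rfl⟩)]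
    · congr 1
      exact used_congr fun i hi => by simp only [he, dif_pos (Nat.lt_succ_of_le hi)]
    · intro w _ hw
      have : ω ∉ cyl X (e (fun i : Fin (t + 1) => X i ω) w) (t + 1) := fun h => hw ((hc (fun i => X i ω) w).1 h).2
      rw [Set.indicator_of_notMem this]
    · simp
    · exact fun h _ hh => sum_eq_zero fun w _ => Set.indicator_of_notMem (fun h' => hh ((hc _ _).1 h').1) _
    · simp
  have hi : ∀ h w, Integrable ((cyl X (e h w) (t + 1)).indicator
      (fun _ => G (used (e h w) t) (h (Fin.last t)) w)) P := fun h w => (integrable_const _).indicator (hm _ _)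
  rw [h1]
  refine ⟨integrable_finsetSum _ fun h _ => integrable_finsetSum _ fun w _ => hi h w, ?_⟩
  rw [integral_finsetSum _ fun h _ => integrable_finsetSum _ fun w _ => hi h w]
  refine sum_nonneg fun h _ => ?_
  rw [integral_finsetSum _ fun w _ => hi h w]
  have h2 : ∀ w i, i ≤ t → e h w i = e h (h 0) i := fun w i hi => by simp only [he, dif_pos (Nat.lt_succ_of_le hi)]
  refine le_of_le_of_eq (mul_nonneg (measureReal_nonneg (μ := P) (s := cyl X (e h (h 0)) t))
    (hG (used (e h (h 0)) t) (h (Fin.last t)))) ?_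
  rw [mul_sum]
  refine sum_congr rfl fun w _ => ?_
  have h3 : cyl X (e h w) t = cyl X (e h (h 0)) t := by
    ext ω; exact forall₂_congr fun i hi => by rw [h2 w i hi]
  rw [integral_indicator_const _ (hm _ _), hX.2, h3, used_congr (h2 w), smul_eq_mul, mul_assoc]
  simp [he, Fin.last]

lemma lower (hn : 2 ≤ n) (he : Even n) {Ω : Type} [MeasurableSpace Ω] {P : Measure Ω} [IsProbabilityMeasure P]
    {X : ℕ → Ω → Fin n} (hX : IsGRW P X) :
    ENNReal.ofReal (n.choose 2 + ((n : ℝ) - 1) / 2 * harmonic (n / 2 - 1)) ≤ ∫⁻ ω, cover (fun i => X i ω) ∂P := by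
  classical
  set A : ℝ := n.choose 2 + ((n : ℝ) - 1) / 2 * harmonic (n / 2 - 1) with hA
  set B : ℝ := n * n / 2 + g n n with hB
  have hB0 : 0 ≤ B := add_nonneg (by positivity) (g_nonneg hn _)
  have key := one_step hX (fun H u w => pot (insert s(u, w) H) w - pot H u + if Full H then 0 else 1) (drift hn)
  have h1 : ∀ T : ℕ, ENNReal.ofReal (A / (1 + B / (T + 1))) ≤ ∫⁻ ω, cover (fun i => X i ω) ∂P := by
    intro T
    set Y : Ω → ℝ := fun ω => A + ∑ t ∈ range T, (pot (insert s(X t ω, X (t + 1) ω) (used (fun i => X i ω) t))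
      (X (t + 1) ω) - pot (used (fun i => X i ω) t) (X t ω) + if Full (used (fun i => X i ω) t) then 0 else 1) with hY
    have hYi : Integrable Y P := (integrable_const _).add (integrable_finsetSum _ fun t _ => (key t).1)
    have hYA : A ≤ ∫ ω, Y ω ∂P := by
      rw [hY, integral_add (integrable_const _) (integrable_finsetSum _ fun t _ => (key t).1),
        integral_finsetSum _ fun t _ => (key t).1]
      simpa using sum_nonneg fun t _ => (key t).2
    have hYe : ∀ ω, Y ω = pot (used (fun i => X i ω) T) (X T ω) +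
        ∑ t ∈ range T, if Full (used (fun i => X i ω) t) then 0 else 1 := fun ω => by
      simp only [hY, ← used_succ (fun i => X i ω), sum_add_distrib]
      rw [sum_range_sub (fun t => pot (used (fun i => X i ω) t) (X t ω))]
      have : pot (used (fun i => X i ω) 0) (X 0 ω) = A := pot_empty hn he _
      rw [this]; ring
    have hp : 0 < 1 + B / (T + 1) := by positivity
    have hY0 : ∀ ω, 0 ≤ Y ω / (1 + B / (T + 1)) := fun ω => by
      rw [hYe]
      exact div_nonneg (add_nonneg (pot_nonneg hn _ _) (sum_nonneg fun t _ => by split_ifs <;> norm_num)) hp.le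
    refine (ENNReal.ofReal_le_ofReal (div_le_div_of_nonneg_right hYA hp.le)).trans ?_
    rw [← integral_div, ofReal_integral_eq_lintegral_ofReal (hYi.div_const _) (ae_of_all _ hY0)]
    refine lintegral_mono fun ω => le_iInf₂ fun s hs => ?_
    rw [← ENNReal.ofReal_natCast]
    refine ENNReal.ofReal_le_ofReal ?_
    have hf : ∀ t, s ≤ t → Full (used (fun i => X i ω) t) := fun t ht u v huv => used_mono _ ht (hs u v huv)
    have h2 : ∑ t ∈ range T, (if Full (used (fun i => X i ω) t) then (0 : ℝ) else 1) ≤ s := by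
      have : ∑ t ∈ range T, (if Full (used (fun i => X i ω) t) then (0 : ℝ) else 1) ≤
          ∑ t ∈ range T, if t ∈ range s then 1 else 0 := sum_le_sum fun t _ => by
        by_cases h : s ≤ t
        · rw [if_pos (hf t h)]; split_ifs <;> norm_num
        · rw [if_pos (mem_range.2 (by omega))]; split_ifs <;> norm_num
      refine this.trans ?_
      rw [sum_ite_mem, sum_const, nsmul_eq_mul, mul_one]
      exact_mod_cast (card_le_card inter_subset_right).trans_eq (card_range s)
    have h3 : pot (used (fun i => X i ω) T) (X T ω) ≤ s * (B / (T + 1)) := by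
      by_cases h : s ≤ T
      · rw [pot_full (hf T h)]; positivity
      · refine (pot_le hn _ _).trans ?_
        have : (T : ℝ) + 1 ≤ s := by exact_mod_cast (by omega : T + 1 ≤ s)
        rw [mul_div_assoc', le_div_iff₀ (by positivity)]; nlinarith
    rw [div_le_iff₀ hp, hYe]; linarith
  refine le_of_tendsto' (ENNReal.tendsto_ofReal (f := atTop) ?_) h1
  have : Tendsto (fun T : ℕ => A / (1 + B / ((T : ℝ) + 1))) atTop (𝓝 (A / (1 + 0))) :=
    tendsto_const_nhds.div (tendsto_const_nhds.add (tendsto_const_nhds.div_atTop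
      (tendsto_atTop_add_const_right _ _ tendsto_natCast_atTop_atTop))) (by norm_num)
  simpa using this

theorem result :
    (∀ n : ℕ, 2 ≤ n → Even n → ∀ (Ω : Type) [MeasurableSpace Ω] (P : Measure Ω) [IsProbabilityMeasure P]
      (X : ℕ → Ω → Fin n), IsGRW P X →
      ENNReal.ofReal (n.choose 2 + ((n : ℝ) - 1) / 2 * harmonic (n / 2 - 1)) ≤ ∫⁻ ω, cover (fun i => X i ω) ∂P) ∧
    ∀ (C : ℝ) (N : ℕ), ∃ n ≥ N, ∀ (Ω : Type) [MeasurableSpace Ω] (P : Measure Ω) [IsProbabilityMeasure P]
      (X : ℕ → Ω → Fin n), IsGRW P X → ENNReal.ofReal (n.choose 2 + C * n) < ∫⁻ ω, cover (fun i => X i ω) ∂P := by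
  refine ⟨fun n hn he Ω _ P _ X hX => lower hn he hX, fun C N => ?_⟩
  obtain ⟨m, hm1, hm2⟩ := ((Real.tendsto_sum_range_one_div_nat_succ_atTop.eventually_gt_atTop (4 * |C|)).and
    (eventually_ge_atTop N)).exists
  refine ⟨2 * (m + 1), by omega, fun Ω _ P _ X hX => lt_of_lt_of_le ?_ (lower (by omega) (even_two_mul _) hX)⟩
  have h1 : (harmonic (2 * (m + 1) / 2 - 1) : ℝ) = ∑ i ∈ range m, 1 / ((i : ℝ) + 1) := by
    rw [show 2 * (m + 1) / 2 - 1 = m by omega]; simp [harmonic]
  have h2 : C * ((2 * (m + 1) : ℕ) : ℝ) < (((2 * (m + 1) : ℕ) : ℝ) - 1) / 2 * harmonic (2 * (m + 1) / 2 - 1) := by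
    rw [h1]; push_cast
    have := le_abs_self C
    have := abs_nonneg C
    have : (0 : ℝ) ≤ m := by positivity
    nlinarith
  have h3 : (0 : ℝ) < (2 * (m + 1)).choose 2 := by exact_mod_cast Nat.choose_pos (by omega)
  refine (ENNReal.ofReal_lt_ofReal_iff ?_).2 (by linarith)
  have := harm_mono (Nat.zero_le (2 * (m + 1) / 2 - 1))
  have h4 : (0 : ℝ) ≤ (((2 * (m + 1) : ℕ) : ℝ) - 1) / 2 := by push_cast; have : (0 : ℝ) ≤ m := by positivity
                                                              linarith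
  simp only [harmonic_zero, Rat.cast_zero] at this
  have := mul_nonneg h4 this
  linarith

end Pool.Agent.Results.MP_3173ec_pr.No
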